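import Pool.Agent.J6H17.RF.Stm

/-!
# Project RF, module RF-LOG: operations on proofs
-/

set_option autoImplicit false

namespace Pool.Agent.J6H1.RF

open Pool.Agent.J6H17.RF

theorem isProof_append {Γ : Set Fm} : ∀ (π π' : List Fm), IsProof Γ π → IsProof Γ π' →
    IsProof Γ (π ++ π')
  | [], _, _, h' => h'
  | φ :: π, π', h, h' => by
    obtain ⟨h1, h2⟩ := h
    refine ⟨isProof_append π π' h1 h', ?_⟩
    rcases h2 with h2 | ⟨ψ, h3, h4⟩ | ⟨ψ, h3, x, h4⟩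
    · exact Or.inl h2
    · exact Or.inr (Or.inl ⟨ψ, List.mem_append_left _ h3, List.mem_append_left _ h4⟩)
    · exact Or.inr (Or.inr ⟨ψ, List.mem_append_left _ h3, x, h4⟩)

theorem isProof_mp {Γ : Set Fm} (φ ψ : Fm) (π π' : List Fm) (h : IsProof Γ (φ.imp ψ :: π))
    (h' : IsProof Γ (φ :: π')) : IsProof Γ (ψ :: ((φ.imp ψ :: π) ++ (φ :: π'))) := by
  refine ⟨isProof_append _ _ h h', Or.inr (Or.inl ⟨φ, ?_, ?_⟩)⟩
  · exact List.mem_append_right _ (List.mem_cons_self ..)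
  · exact List.mem_append_left _ (List.mem_cons_self ..)

theorem isProof_mono {Γ Γ' : Set Fm} (hs : Γ ⊆ Γ') : ∀ π : List Fm, IsProof Γ π → IsProof Γ' π
  | [], _ => trivial
  | φ :: π, h => by
    obtain ⟨h1, h2⟩ := h
    refine ⟨isProof_mono hs π h1, ?_⟩
    rcases h2 with h2 | h2
    · exact Or.inl (hs h2)
    · exact Or.inr h2

/-- Every line of a proof is provable. -/
theorem proves_of_mem {Γ : Set Fm} : ∀ (π : List Fm), IsProof Γ π → ∀ φ ∈ π, Proves Γ φ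
  | [], _, φ, hφ => absurd hφ (List.not_mem_nil)
  | ψ :: π, h, φ, hφ => by
    rcases List.mem_cons.1 hφ with rfl | hφ
    · exact ⟨π, h⟩
    · exact proves_of_mem π h.1 φ hφ

theorem exists_cut {Γ Γ' : Set Fm} (hc : ∀ ψ ∈ Γ', Proves Γ ψ) :
    ∀ π : List Fm, IsProof Γ' π → ∃ ρ : List Fm, IsProof Γ ρ ∧ ∀ φ ∈ π, φ ∈ ρ
  | [], _ => ⟨[], trivial, fun _ h => h⟩
  | φ :: π, h => by
    obtain ⟨h1, h2⟩ := h
    obtain ⟨ρ, hρ, hmem⟩ := exists_cut hc π h1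
    rcases h2 with h2 | ⟨ψ, h3, h4⟩ | ⟨ψ, h3, x, h4⟩
    · obtain ⟨σ, hσ⟩ := hc φ h2
      refine ⟨(φ :: σ) ++ ρ, isProof_append _ _ hσ hρ, ?_⟩
      intro χ hχ
      rcases List.mem_cons.1 hχ with rfl | hχ
      · exact List.mem_append_left _ (List.mem_cons_self ..)
      · exact List.mem_append_right _ (hmem χ hχ)
    · refine ⟨φ :: ρ, ⟨hρ, Or.inr (Or.inl ⟨ψ, hmem _ h3, hmem _ h4⟩)⟩, ?_⟩
      intro χ hχ
      rcases List.mem_cons.1 hχ with rfl | hχ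
      · exact List.mem_cons_self ..
      · exact List.mem_cons_of_mem _ (hmem χ hχ)
    · refine ⟨φ :: ρ, ⟨hρ, Or.inr (Or.inr ⟨ψ, hmem _ h3, x, h4⟩)⟩, ?_⟩
      intro χ hχ
      rcases List.mem_cons.1 hχ with rfl | hχ
      · exact List.mem_cons_self ..
      · exact List.mem_cons_of_mem _ (hmem χ hχ)

/-- **RF-LOG.** -/
theorem main : S_LOG := by
  refine ⟨fun Γ π π' h h' => isProof_append π π' h h',
    fun Γ φ ψ π π' h h' => isProof_mp φ ψ π π' h h',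
    fun Γ Γ' π hs h => isProof_mono hs π h, ?_⟩
  rintro Γ Γ' φ hc ⟨π, hπ⟩
  obtain ⟨ρ, hρ, hmem⟩ := exists_cut hc _ hπ
  exact proves_of_mem ρ hρ φ (hmem φ (List.mem_cons_self ..))

end Pool.Agent.J6H1.RF
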