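import Pool.Agent.J6H50.RF.Stm

/-!
# RF-20: the class `Π_2^P` with trees as certificates
-/

set_option autoImplicit false

namespace Pool.Agent.J6H1.RF20

open Pool.Agent.J6H50.RF Pool.Agent.NPC

/-- the test -/
def test (R : List Bool × T × T → Bool) (w : List Bool) : Bool :=
  match parse (unpair (unpair w).2).1 with
  | none => true
  | some ty => match parse (unpair (unpair w).2).2 with
    | none => false
    | some tz => R ((unpair w).1, ty, tz)

theorem poly_test {R : List Bool × T × T → Bool} (hR : Poly R) : Poly (test R) := by
  have hu : Poly (fun w : List Bool => unpair (unpair w).2) :=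
    poly_unpair.comp (NPC.Poly.snd poly_unpair)
  have h1 : Poly (fun w : List Bool => parse (unpair (unpair w).2).1) :=
    poly_parse.comp (NPC.Poly.fst hu)
  have h2 : Poly (fun w : List Bool => parse (unpair (unpair w).2).2) :=
    poly_parse.comp (NPC.Poly.snd hu)
  refine (NPC.Poly.optCases (o := fun w : List Bool => parse (unpair (unpair w).2).1)
    (g := fun _ => true) (h := fun (w : List Bool) (ty : T) =>
      match parse (unpair (unpair w).2).2 with
      | none => false
      | some tz => R ((unpair w).1, ty, tz)) h1 (NPC.Poly.const true) ?_).congr (fun w => by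
        unfold test
        rcases parse (unpair (unpair w).2).1 with _ | ty
        · rfl
        · rfl)
  refine (NPC.Poly.optCases (o := fun p : List Bool × T => parse (unpair (unpair p.1).2).2)
    (g := fun _ => false) (h := fun (p : List Bool × T) (tz : T) => R ((unpair p.1).1, p.2, tz))
    (h2.comp (NPC.Poly.fst NPC.Poly.id)) (NPC.Poly.const false) ?_).congr (fun p => by
      rcases parse (unpair (unpair p.1).2).2 with _ | tz
      · rfl
      · rfl)
  exact hR.comp (NPC.Poly.pair
    (NPC.Poly.fst (poly_unpair.comp (NPC.Poly.fst (NPC.Poly.fst NPC.Poly.id))))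
    (NPC.Poly.pair (NPC.Poly.snd (NPC.Poly.fst NPC.Poly.id)) (NPC.Poly.snd NPC.Poly.id)))

theorem test_eq (R : List Bool × T × T → Bool) (x y z : List Bool) :
    test R (pairBits x (pairBits y z)) =
      match parse y with
      | none => true
      | some ty => match parse z with
        | none => false
        | some tz => R (x, ty, tz) := by
  unfold test
  simp only [unpair_pairBits]

theorem length_enc (t : T) : t.enc.length = sz t := rfl

/-- **RF-20.** -/
theorem m20 : S_pi2 := by
  intro R q hR D hD
  refine ⟨fun w => [test R w], q, polyTime_of_poly (poly_test hR), fun x => ?_⟩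
  rw [hD x]
  constructor
  · intro h y hy
    rcases hp : parse y with _ | ty
    · refine ⟨[], Nat.zero_le _, ?_⟩
      simp only [test_eq, hp]
    · have h1 := enc_of_parse hp
      obtain ⟨z, hz, hzR⟩ := h ty (by rw [← length_enc, h1]; exact hy)
      refine ⟨z.enc, by rw [length_enc]; exact hz, ?_⟩
      simp only [test_eq, hp, parse_enc, hzR]
  · intro h y hy
    obtain ⟨z, hz, hV⟩ := h y.enc (by rw [length_enc]; exact hy)
    simp only [test_eq, parse_enc] at hV
    rcases hp : parse z with _ | tz
    · rw [hp] at hV
      simp at hV
    · rw [hp] at hV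
      have h1 := enc_of_parse hp
      refine ⟨tz, by rw [← length_enc, h1]; exact hz, ?_⟩
      simpa using hV

end Pool.Agent.J6H1.RF20
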